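import Pool.Agent.Y402.PL.Stm2

/-! # Project PL, part 2: pushing a minimal separating family down one level -/

set_option autoImplicit false

open scoped Classical

namespace Pool.Agent.Y748.PL

open Pointwise Finset Pool.Agent.Y402.PL

/-- the edges -/
def Ed (B : Finset (ℕ × ℕ)) (u v : ℕ × ℕ) : Prop := ∃ b ∈ B, u + b = v

/-- a path from `A` to `Q` which avoids `S` -/
def Pth (h : ℕ) (A B Q : Finset (ℕ × ℕ)) (S : ℕ → Finset (ℕ × ℕ)) : Prop :=
  ∃ x : ℕ → ℕ × ℕ, x 0 ∈ A ∧ (∀ j < h, Ed B (x j) (x (j + 1))) ∧ (∀ j ≤ h, x j ∉ S j) ∧ x h ∈ Q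

/-- a path from `y` at level `i` to `Q` which avoids `S` -/
def Co (h : ℕ) (B Q : Finset (ℕ × ℕ)) (S : ℕ → Finset (ℕ × ℕ)) (i : ℕ) (y : ℕ × ℕ) : Prop :=
  ∃ x : ℕ → ℕ × ℕ, x i = y ∧ (∀ j, i ≤ j → j < h → Ed B (x j) (x (j + 1))) ∧
    (∀ j, i ≤ j → j ≤ h → x j ∉ S j) ∧ x h ∈ Q

section

variable {h : ℕ} {A B Q : Finset (ℕ × ℕ)} {S : ℕ → Finset (ℕ × ℕ)}

theorem mem_reach (i : ℕ) (y : ℕ × ℕ) : y ∈ reach A B S i ↔
    ∃ x : ℕ → ℕ × ℕ, x i = y ∧ x 0 ∈ A ∧ (∀ j < i, Ed B (x j) (x (j + 1))) ∧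
      ∀ j ≤ i, x j ∉ S j := by
  induction i generalizing y with
  | zero =>
    rw [reach, mem_sdiff]
    constructor
    · rintro ⟨h1, h2⟩
      refine ⟨fun _ => y, rfl, h1, fun j hj => absurd hj (by omega), fun j hj => ?_⟩
      have : j = 0 := by omega
      subst this
      exact h2
    · rintro ⟨x, rfl, h1, _, h2⟩
      exact ⟨h1, h2 0 le_rfl⟩
  | succ i ih =>
    rw [reach, mem_sdiff, mem_add]
    constructor
    · rintro ⟨⟨u, hu, b, hb, rfl⟩, h2⟩
      obtain ⟨x, hx1, hx2, hx3, hx4⟩ := (ih u).1 hu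
      refine ⟨fun j => if j ≤ i then x j else u + b, ?_, ?_, ?_, ?_⟩
      · show (if i + 1 ≤ i then x (i + 1) else u + b) = u + b
        rw [if_neg (by omega)]
      · show (if 0 ≤ i then x 0 else u + b) ∈ A
        rw [if_pos (by omega)]
        exact hx2
      · intro j hj
        show Ed B (if j ≤ i then x j else u + b) (if j + 1 ≤ i then x (j + 1) else u + b)
        rw [if_pos (by omega)]
        by_cases hji : j + 1 ≤ i
        · rw [if_pos hji]
          exact hx3 j (by omega)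
        · rw [if_neg hji]
          have : j = i := by omega
          subst this
          rw [hx1]
          exact ⟨b, hb, rfl⟩
      · intro j hj
        show (if j ≤ i then x j else u + b) ∉ S j
        by_cases hji : j ≤ i
        · rw [if_pos hji]
          exact hx4 j hji
        · rw [if_neg hji]
          have : j = i + 1 := by omega
          subst this
          exact h2
    · rintro ⟨x, rfl, h1, h2, h3⟩
      refine ⟨?_, h3 (i + 1) le_rfl⟩
      obtain ⟨b, hb, hxb⟩ := h2 i (by omega)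
      refine ⟨x i, (ih (x i)).2 ⟨x, rfl, h1, fun j hj => h2 j (by omega),
        fun j hj => h3 j (by omega)⟩, b, hb, hxb⟩

theorem sep_iff : Sep h A B Q S ↔ ¬ Pth h A B Q S := by
  rw [Pool.Agent.Y402.PL.Sep, Finset.disjoint_left]
  constructor
  · rintro h1 ⟨x, hx1, hx2, hx3, hx4⟩
    exact h1 ((mem_reach h (x h)).2 ⟨x, rfl, hx1, hx2, hx3⟩) hx4
  · intro h1 y hy hyQ
    obtain ⟨x, rfl, hx1, hx2, hx3⟩ := (mem_reach h y).1 hy
    exact h1 ⟨x, hx1, hx2, hx3, hyQ⟩

theorem no_both (hS : ¬ Pth h A B Q S) {i : ℕ} (hi : i ≤ h) {y : ℕ × ℕ}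
    (h1 : y ∈ reach A B S i) (h2 : Co h B Q S i y) : False := by
  obtain ⟨x, hx1, hx2, hx3, hx4⟩ := (mem_reach i y).1 h1
  obtain ⟨z, hz1, hz2, hz3, hz4⟩ := h2
  apply hS
  refine ⟨fun j => if j < i then x j else z j, ?_, ?_, ?_, ?_⟩
  · show (if 0 < i then x 0 else z 0) ∈ A
    by_cases h0 : 0 < i
    · rw [if_pos h0]
      exact hx2
    · rw [if_neg h0]
      have : i = 0 := by omega
      subst this
      rw [hz1, ← hx1]
      exact hx2
  · intro j hj
    show Ed B (if j < i then x j else z j) (if j + 1 < i then x (j + 1) else z (j + 1))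
    by_cases hji : j < i
    · rw [if_pos hji]
      by_cases hji' : j + 1 < i
      · rw [if_pos hji']
        exact hx3 j hji
      · rw [if_neg hji']
        have : i = j + 1 := by omega
        subst this
        rw [hz1, ← hx1]
        exact hx3 j hji
    · rw [if_neg hji, if_neg (by omega)]
      exact hz2 j (by omega) hj
  · intro j hj
    show (if j < i then x j else z j) ∉ S j
    by_cases hji : j < i
    · rw [if_pos hji]
      exact hx4 j hji.le
    · rw [if_neg hji]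
      exact hz3 j (by omega) hj
  · show (if h < i then x h else z h) ∈ Q
    rw [if_neg (by omega)]
    exact hz4

/-- move `Z ⊆ S i` to the set `N` at level `l` -/
def mv (S : ℕ → Finset (ℕ × ℕ)) (i : ℕ) (Z : Finset (ℕ × ℕ)) (l : ℕ) (N : Finset (ℕ × ℕ)) :
    ℕ → Finset (ℕ × ℕ) :=
  fun j => if j = i then S i \ Z else if j = l then S l ∪ N else S j

theorem mv_i (i : ℕ) (Z : Finset (ℕ × ℕ)) (l : ℕ) (N : Finset (ℕ × ℕ)) :
    mv S i Z l N i = S i \ Z := if_pos rfl

theorem mv_l (i : ℕ) (Z : Finset (ℕ × ℕ)) (l : ℕ) (N : Finset (ℕ × ℕ)) (hl : l ≠ i) :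
    mv S i Z l N l = S l ∪ N := by
  unfold mv
  rw [if_neg hl, if_pos rfl]

theorem mv_sub (i : ℕ) (Z : Finset (ℕ × ℕ)) (l : ℕ) (N : Finset (ℕ × ℕ)) {j : ℕ} (hj : j ≠ i) :
    S j ⊆ mv S i Z l N j := by
  unfold mv
  rw [if_neg hj]
  by_cases hjl : j = l
  · subst hjl
    rw [if_pos rfl]
    exact subset_union_left
  · rw [if_neg hjl]

theorem mv_other (i : ℕ) (Z : Finset (ℕ × ℕ)) (l : ℕ) (N : Finset (ℕ × ℕ)) {j : ℕ} (hj : j ≠ i)
    (hjl : j ≠ l) : mv S i Z l N j = S j := by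
  unfold mv
  rw [if_neg hj, if_neg hjl]

/-- the lower neighbours of `Z` -/
noncomputable def Nm (A B : Finset (ℕ × ℕ)) (S : ℕ → Finset (ℕ × ℕ)) (l : ℕ)
    (Z : Finset (ℕ × ℕ)) : Finset (ℕ × ℕ) :=
  (reach A B S l).filter (fun u => ∃ v ∈ Z, Ed B u v)

/-- the upper neighbours of `Z` -/
noncomputable def Np (h : ℕ) (B Q : Finset (ℕ × ℕ)) (S : ℕ → Finset (ℕ × ℕ)) (i : ℕ)
    (Z : Finset (ℕ × ℕ)) : Finset (ℕ × ℕ) :=
  (S i + B).filter (fun w => Co h B Q S (i + 1) w ∧ ∃ v ∈ Z, Ed B v w)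

theorem sep_down (hS : ¬ Pth h A B Q S) {l : ℕ} (hl : l + 1 ≤ h) (Z : Finset (ℕ × ℕ)) :
    ¬ Pth h A B Q (mv S (l + 1) Z l (Nm A B S l Z)) := by
  rintro ⟨x, hx1, hx2, hx3, hx4⟩
  have hav : ∀ j ≤ h, j ≠ l + 1 → x j ∉ S j := fun j hj hne hm =>
    hx3 j hj (mv_sub _ _ _ _ hne hm)
  by_cases hi : x (l + 1) ∈ S (l + 1)
  · have hZ : x (l + 1) ∈ Z := by
      by_contra hZ
      apply hx3 (l + 1) hl
      rw [mv_i, mem_sdiff]
      exact ⟨hi, hZ⟩
    apply hx3 l (by omega)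
    rw [mv_l _ _ _ _ (by omega), mem_union]
    right
    rw [Nm, mem_filter]
    refine ⟨(mem_reach l (x l)).2 ⟨x, rfl, hx1, fun j hj => hx2 j (by omega),
      fun j hj => hav j (by omega) (by omega)⟩, x (l + 1), hZ, hx2 l (by omega)⟩
  · apply hS
    refine ⟨x, hx1, hx2, fun j hj => ?_, hx4⟩
    by_cases hji : j = l + 1
    · subst hji
      exact hi
    · exact hav j hj hji

theorem sep_up (hS : ¬ Pth h A B Q S) {i : ℕ} (hi1 : i + 1 ≤ h) (Z : Finset (ℕ × ℕ)) :
    ¬ Pth h A B Q (mv S i Z (i + 1) (Np h B Q S i Z)) := by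
  rintro ⟨x, hx1, hx2, hx3, hx4⟩
  have hav : ∀ j ≤ h, j ≠ i → x j ∉ S j := fun j hj hne hm =>
    hx3 j hj (mv_sub _ _ _ _ hne hm)
  by_cases hi : x i ∈ S i
  · have hZ : x i ∈ Z := by
      by_contra hZ
      apply hx3 i (by omega)
      rw [mv_i, mem_sdiff]
      exact ⟨hi, hZ⟩
    apply hx3 (i + 1) hi1
    rw [mv_l _ _ _ _ (by omega), mem_union]
    right
    have hE := hx2 i (by omega)
    rw [Np, mem_filter]
    refine ⟨?_, ⟨x, rfl, fun j hj1 hj2 => hx2 j hj2, fun j hj1 hj2 => hav j hj2 (by omega),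
      hx4⟩, x i, hZ, hE⟩
    obtain ⟨b, hb, hxb⟩ := hE
    exact mem_add.2 ⟨x i, hi, b, hb, hxb⟩
  · apply hS
    refine ⟨x, hx1, hx2, fun j hj => ?_, hx4⟩
    by_cases hji : j = i
    · subst hji
      exact hi
    · exact hav j hj hji

theorem wt_mv {C : ℝ} (hC : 0 < C) {i l : ℕ} (hi : i ≤ h) (hl : l ≤ h) (hli : l ≠ i)
    (Z N : Finset (ℕ × ℕ)) (hZ : Z ⊆ S i) :
    wt C h (mv S i Z l N) ≤ wt C h S - (C⁻¹) ^ i * (Z.card : ℝ) + (C⁻¹) ^ l * (N.card : ℝ) := by
  have hC' : 0 < C⁻¹ := inv_pos.2 hC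
  have h1 : ∀ j ∈ range (h + 1), (C⁻¹) ^ j * (((mv S i Z l N) j).card : ℝ) ≤
      (C⁻¹) ^ j * ((S j).card : ℝ) - (if j = i then (C⁻¹) ^ i * (Z.card : ℝ) else 0) +
        (if j = l then (C⁻¹) ^ l * (N.card : ℝ) else 0) := by
    intro j _
    by_cases hji : j = i
    · subst hji
      rw [if_pos rfl, if_neg (Ne.symm hli), mv_i, card_sdiff_of_subset hZ,
        Nat.cast_sub (card_le_card hZ)]
      apply le_of_eq
      ring
    · rw [if_neg hji]
      by_cases hjl : j = l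
      · subst hjl
        rw [if_pos rfl, mv_l _ _ _ _ hli]
        have h2 : (((S j ∪ N).card : ℕ) : ℝ) ≤ ((S j).card : ℝ) + (N.card : ℝ) := by
          exact_mod_cast card_union_le _ _
        have h3 : 0 < (C⁻¹) ^ j := pow_pos hC' j
        nlinarith
      · rw [if_neg hjl, mv_other _ _ _ _ hji hjl]
        linarith
  unfold wt
  refine (sum_le_sum h1).trans (le_of_eq ?_)
  rw [sum_add_distrib, sum_sub_distrib, sum_ite_eq', sum_ite_eq', if_pos (by simp; omega),
    if_pos (by simp; omega)]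

/-- layer cake -/
theorem layer {α : Type} (s : Finset α) (f : α → ℕ) (T : ℕ) (hT : ∀ v ∈ s, f v ≤ T) :
    ∑ t ∈ range T, (s.filter (fun v => t < f v)).card = ∑ v ∈ s, f v := by
  simp_rw [card_filter]
  rw [sum_comm]
  refine sum_congr rfl fun v hv => ?_
  rw [← card_filter]
  have : (range T).filter (fun t => t < f v) = range (f v) := by
    ext t
    rw [mem_filter, mem_range, mem_range]
    have := hT v hv
    omega
  rw [this, card_range]

end

theorem mainPUSH : S_PUSH := by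
  intro h A B Q C hC S hSep hmin i hi1 hih
  obtain ⟨l, rfl⟩ : ∃ l, i = l + 1 := ⟨i - 1, by omega⟩
  have hS : ¬ Pth h A B Q S := sep_iff.1 hSep
  have hC' : 0 < C⁻¹ := inv_pos.2 hC
  -- (1)
  have P1 : ∀ Z, Z ⊆ S (l + 1) → (Z.card : ℝ) ≤ C * ((Nm A B S l Z).card : ℝ) := by
    intro Z hZ
    have h1 := hmin _ (sep_iff.2 (sep_down hS (l := l) (by omega) Z))
    have h2 := wt_mv (S := S) (h := h) hC (i := l + 1) (l := l) (by omega) (by omega) (by omega) Z
      (Nm A B S l Z) hZ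
    have h3 : (C⁻¹) ^ (l + 1) * (Z.card : ℝ) ≤ (C⁻¹) ^ l * ((Nm A B S l Z).card : ℝ) := by
      linarith
    rw [pow_succ, mul_assoc] at h3
    have h4 := le_of_mul_le_mul_left h3 (pow_pos hC' l)
    rwa [inv_mul_le_iff₀ hC] at h4
  -- (2)
  have P2 : ∀ Z, Z ⊆ S (l + 1) → C * (Z.card : ℝ) ≤ ((Np h B Q S (l + 1) Z).card : ℝ) := by
    intro Z hZ
    have h1 := hmin _ (sep_iff.2 (sep_up hS (i := l + 1) (by omega) Z))
    have h2 := wt_mv (S := S) (h := h) hC (i := l + 1) (l := l + 1 + 1) (by omega) (by omega)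
      (by omega) Z (Np h B Q S (l + 1) Z) hZ
    have h3 : (C⁻¹) ^ (l + 1) * (Z.card : ℝ) ≤
        (C⁻¹) ^ (l + 1 + 1) * ((Np h B Q S (l + 1) Z).card : ℝ) := by
      linarith
    rw [pow_succ _ (l + 1), mul_assoc] at h3
    have h4 := le_of_mul_le_mul_left h3 (pow_pos hC' (l + 1))
    rwa [le_inv_mul_iff₀ hC] at h4
  set Si := S (l + 1) with hSi
  set X := Nm A B S l Si with hX
  set Y := Np h B Q S (l + 1) Si with hY
  -- the fourth corner of a parallelogram is in `Si`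
  have hpar : ∀ u ∈ X, ∀ w ∈ Y, ∀ v, Ed B u v → Ed B v w → v ∈ Si := by
    intro u hu w hw v huv hvw
    by_contra hv
    rw [hX, Nm, mem_filter] at hu
    rw [hY, Np, mem_filter] at hw
    obtain ⟨z, hz1, hz2, hz3, hz4⟩ := hw.2.1
    obtain ⟨b, hb, hub⟩ := huv
    apply no_both hS (i := l + 1) (by omega) (y := v)
    · rw [reach, mem_sdiff]
      exact ⟨mem_add.2 ⟨u, hu.1, b, hb, hub⟩, hv⟩
    · refine ⟨fun j => if j = l + 1 then v else z j, if_pos rfl, ?_, ?_, ?_⟩
      · intro j hj1 hj2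
        show Ed B (if j = l + 1 then v else z j) (if j + 1 = l + 1 then v else z (j + 1))
        rw [if_neg (by omega : ¬ j + 1 = l + 1)]
        by_cases hj : j = l + 1
        · subst hj
          rw [if_pos rfl, hz1]
          exact hvw
        · rw [if_neg hj]
          exact hz2 j (by omega) hj2
      · intro j hj1 hj2
        show (if j = l + 1 then v else z j) ∉ S j
        by_cases hj : j = l + 1
        · subst hj
          rw [if_pos rfl]
          exact hv
        · rw [if_neg hj]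
          exact hz3 j (by omega) hj2
      · show (if h = l + 1 then v else z h) ∈ Q
        rw [if_neg (by omega)]
        exact hz4
  -- degrees
  set dpu : ℕ × ℕ → ℕ := fun u => (Si.filter (fun v => Ed B u v)).card with hdpu
  set dmv : ℕ × ℕ → ℕ := fun v => (X.filter (fun u => Ed B u v)).card with hdmv
  set dpv : ℕ × ℕ → ℕ := fun v => (Y.filter (fun w => Ed B v w)).card with hdpv
  set dmw : ℕ × ℕ → ℕ := fun w => (Si.filter (fun v => Ed B v w)).card with hdmw
  have com1 : ∀ u ∈ X, ∀ v, Ed B u v → dpv v ≤ dpu u := by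
    intro u hu v huv
    obtain ⟨b, hb, hub⟩ := huv
    have hsub : Y.filter (fun w => Ed B v w) ⊆
        (Si.filter (fun v => Ed B u v)).image (fun v' => v' + b) := by
      intro w hw
      rw [mem_filter] at hw
      obtain ⟨hwY, b', hb', hvb'⟩ := hw
      rw [mem_image]
      have e1 : u + b' + b = w := by
        rw [← hvb', ← hub]
        abel
      refine ⟨u + b', mem_filter.2 ⟨?_, b', hb', rfl⟩, e1⟩
      exact hpar u hu w hwY (u + b') ⟨b', hb', rfl⟩ ⟨b, hb, e1⟩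
    exact (card_le_card hsub).trans card_image_le
  have com2 : ∀ w ∈ Y, ∀ v, Ed B v w → dmv v ≤ dmw w := by
    intro w hw v hvw
    obtain ⟨b, hb, hvb⟩ := hvw
    have hsub : (X.filter (fun u => Ed B u v)).image (fun u => u + b) ⊆
        Si.filter (fun v => Ed B v w) := by
      intro v' hv'
      rw [mem_image] at hv'
      obtain ⟨u, hu, rfl⟩ := hv'
      rw [mem_filter] at hu
      obtain ⟨huX, b', hb', hub'⟩ := hu
      have e1 : u + b + b' = w := by
        rw [← hvb, ← hub']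
        abel
      exact mem_filter.2 ⟨hpar u huX w hw (u + b) ⟨b, hb, rfl⟩ ⟨b', hb', e1⟩, b', hb', e1⟩
    have hinj : ((X.filter (fun u => Ed B u v)).image (fun u => u + b)).card =
        (X.filter (fun u => Ed B u v)).card :=
      card_image_of_injective _ (add_left_injective b)
    show (X.filter (fun u => Ed B u v)).card ≤ _
    rw [← hinj]
    exact card_le_card hsub
  -- double counting
  have dc1 : ∑ u ∈ X, dpu u = ∑ v ∈ Si, dmv v :=
    sum_card_bipartiteAbove_eq_sum_card_bipartiteBelow (fun u v => Ed B u v)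
  have dc2 : ∑ v ∈ Si, dpv v = ∑ w ∈ Y, dmw w :=
    sum_card_bipartiteAbove_eq_sum_card_bipartiteBelow (fun v w => Ed B v w)
  -- layers
  have L1 : ∀ t, ((Si.filter (fun v => t < dpv v)).card : ℝ) ≤
      C * ((X.filter (fun u => t < dpu u)).card : ℝ) := by
    intro t
    refine (P1 _ (filter_subset _ _)).trans (mul_le_mul_of_nonneg_left ?_ hC.le)
    have hsub : Nm A B S l (Si.filter (fun v => t < dpv v)) ⊆ X.filter (fun u => t < dpu u) := by
      intro u hu
      rw [Nm, mem_filter] at hu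
      obtain ⟨hu1, v, hv, huv⟩ := hu
      rw [mem_filter] at hv
      have huX : u ∈ X := by
        rw [hX, Nm, mem_filter]
        exact ⟨hu1, v, hv.1, huv⟩
      exact mem_filter.2 ⟨huX, hv.2.trans_le (com1 u huX v huv)⟩
    exact_mod_cast card_le_card hsub
  have L2 : ∀ t, C * ((Si.filter (fun v => t < dmv v)).card : ℝ) ≤
      ((Y.filter (fun w => t < dmw w)).card : ℝ) := by
    intro t
    refine (P2 _ (filter_subset _ _)).trans ?_
    have hsub : Np h B Q S (l + 1) (Si.filter (fun v => t < dmv v)) ⊆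
        Y.filter (fun w => t < dmw w) := by
      intro w hw
      rw [Np, mem_filter] at hw
      obtain ⟨hw1, hw2, v, hv, hvw⟩ := hw
      rw [mem_filter] at hv
      have hwY : w ∈ Y := by
        rw [hY, Np, mem_filter]
        exact ⟨hw1, hw2, v, hv.1, hvw⟩
      exact mem_filter.2 ⟨hwY, hv.2.trans_le (com2 w hwY v hvw)⟩
    exact_mod_cast card_le_card hsub
  set T : ℕ := Si.card + X.card + Y.card + 1 with hT
  have b1 : ∀ v ∈ Si, dpv v ≤ T := fun v _ => by
    have : dpv v ≤ Y.card := card_filter_le _ _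
    omega
  have b2 : ∀ u ∈ X, dpu u ≤ T := fun u _ => by
    have : dpu u ≤ Si.card := card_filter_le _ _
    omega
  have b3 : ∀ v ∈ Si, dmv v ≤ T := fun v _ => by
    have : dmv v ≤ X.card := card_filter_le _ _
    omega
  have b4 : ∀ w ∈ Y, dmw w ≤ T := fun w _ => by
    have : dmw w ≤ Si.card := card_filter_le _ _
    omega
  have s1 : ((∑ t ∈ range T, (Si.filter (fun v => t < dpv v)).card : ℕ) : ℝ) =
      ((∑ v ∈ Si, dpv v : ℕ) : ℝ) := by rw [layer Si dpv T b1]
  have s2 : ((∑ t ∈ range T, (X.filter (fun u => t < dpu u)).card : ℕ) : ℝ) =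
      ((∑ v ∈ Si, dmv v : ℕ) : ℝ) := by rw [layer X dpu T b2, dc1]
  have s3 : ((∑ t ∈ range T, (Si.filter (fun v => t < dmv v)).card : ℕ) : ℝ) =
      ((∑ v ∈ Si, dmv v : ℕ) : ℝ) := by rw [layer Si dmv T b3]
  have s4 : ((∑ t ∈ range T, (Y.filter (fun w => t < dmw w)).card : ℕ) : ℝ) =
      ((∑ v ∈ Si, dpv v : ℕ) : ℝ) := by rw [layer Y dmw T b4, dc2]
  push_cast at s1 s2 s3 s4
  have i2 : C * ∑ v ∈ Si, (dmv v : ℝ) ≤ ∑ v ∈ Si, (dpv v : ℝ) := by
    rw [← s3, ← s4, mul_sum]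
    exact sum_le_sum fun t _ => L2 t
  have i3 : ∑ t ∈ range T, (C * ((X.filter (fun u => t < dpu u)).card : ℝ) -
      ((Si.filter (fun v => t < dpv v)).card : ℝ)) ≤ 0 := by
    rw [sum_sub_distrib, ← mul_sum, s1, s2]
    linarith
  have i4 : C * ((X.filter (fun u => 0 < dpu u)).card : ℝ) -
      ((Si.filter (fun v => 0 < dpv v)).card : ℝ) ≤ 0 := by
    have h5 : ∀ t ∈ range T, 0 ≤ C * ((X.filter (fun u => t < dpu u)).card : ℝ) -
      ((Si.filter (fun v => t < dpv v)).card : ℝ) := fun t _ => sub_nonneg.2 (L1 t)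
    exact (single_le_sum h5 (mem_range.2 (by omega : 0 < T))).trans i3
  have i5 : X.filter (fun u => 0 < dpu u) = X := by
    apply filter_true_of_mem
    intro u hu
    rw [hX, Nm, mem_filter] at hu
    obtain ⟨_, v, hv, huv⟩ := hu
    exact card_pos.2 ⟨v, mem_filter.2 ⟨hv, huv⟩⟩
  rw [i5] at i4
  have i6 : C * (X.card : ℝ) ≤ (Si.card : ℝ) := by
    have h7 : ((Si.filter (fun v => 0 < dpv v)).card : ℝ) ≤ (Si.card : ℝ) := by
      exact_mod_cast card_filter_le _ _
    linarith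
  -- the new family
  have hsep' : Sep h A B Q (mv S (l + 1) Si l X) :=
    sep_iff.2 (sep_down hS (l := l) (by omega) Si)
  refine ⟨mv S (l + 1) Si l X, hsep', ?_, ?_, ?_⟩
  · apply le_antisymm _ (hmin _ hsep')
    have h2 := wt_mv (S := S) (h := h) hC (i := l + 1) (l := l) (by omega) (by omega) (by omega) Si
      X (by rw [hSi])
    have h3 : (C⁻¹) ^ l * (X.card : ℝ) ≤ (C⁻¹) ^ (l + 1) * (Si.card : ℝ) := by
      rw [pow_succ, mul_assoc]
      apply mul_le_mul_of_nonneg_left _ (pow_pos hC' l).le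
      rwa [le_inv_mul_iff₀ hC]
    linarith
  · rw [mv_i, hSi, sdiff_self]
    rfl
  · intro j hj
    exact mv_other _ _ _ _ (by omega) (by omega)

end Pool.Agent.Y748.PL
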